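import Pool.Agent.H94.KH5

set_option autoImplicit false

namespace Pool.Agent.Results.MP_97d5d8_an.Horn
open Set Pool.Agent.H94.KH

theorem result (n : ℕ) (f : ℝ → ℝ) (hf : ContDiffOn ℝ 1 f (Icc 0 1)) (f0 : f 0 = 0) (f1 : f 1 = 0)
    (pos : ∀ s ∈ Ioo (0 : ℝ) 1, 0 < f s) :
    ∃ U : Set (EuclideanSpace ℝ (Fin (n + 2))), MeasurableSet U ∧ IsConnected U ∧
      CondD U ∧ ¬ CondB U ∧ (∃ u, IsSol f U u) ∧ ∀ u, IsSol f U u → Sym u :=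
  main f hf f0 f1 pos

end Pool.Agent.Results.MP_97d5d8_an.Horn
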